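import Pool.Agent.MP_ca0a54_nt.H24.Spec

/-!
Row PROB: one of `m` disjoint prime sums has a negative real part with probability `1 - ε`.
-/

open Complex MeasureTheory Filter Topology

namespace Pool.Agent.MP_ca0a54_nt.H97

open Pool.Agent.MP_ca0a54_nt.L0 Pool.Agent.MP_ca0a54_nt.H24

/-! ### The deterministic inequality -/

lemma sq_le_aux (x l : ℝ) (hl : 0 < l) : x ^ 2 ≤ l * |x| + x ^ 4 / l ^ 2 := by
  have h4 : 0 ≤ x ^ 4 / l ^ 2 := by positivity
  rcases le_total |x| l with h | h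
  · have : x ^ 2 = |x| * |x| := by rw [← sq_abs, sq]
    have h2 : |x| * |x| ≤ l * |x| := mul_le_mul_of_nonneg_right h (abs_nonneg x)
    linarith
  · have h1 : l ^ 2 ≤ x ^ 2 := by
      rw [← sq_abs x]; exact pow_le_pow_left₀ hl.le h 2
    have h2 : x ^ 2 ≤ x ^ 4 / l ^ 2 := by
      rw [le_div_iff₀ (by positivity)]
      have : x ^ 4 = x ^ 2 * x ^ 2 := by ring
      rw [this]; exact mul_le_mul_of_nonneg_left h1 (sq_nonneg x)
    have : 0 ≤ l * |x| := by positivity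
    linarith

lemma det_step {m : ℕ} (hm : 1 ≤ m) (Y : Fin m → ℂ) (l : ℝ) (hl : 0 < l)
    (hA : ‖∑ j, Y j‖ ^ 2 ≤ (m / (32 * l)) ^ 2)
    (hB : (∑ j, (‖Y j‖ ^ 2 - 1)) ^ 2 ≤ (m / 4 : ℝ) ^ 2)
    (hC : ‖∑ j, Y j ^ 2‖ ^ 2 ≤ (m / 4 : ℝ) ^ 2)
    (hD : ∑ j, ‖Y j‖ ^ 2 * ‖Y j‖ ^ 2 ≤ m * (l ^ 2 / 8)) :
    ∃ j, (Y j).re ≤ -(1 / (32 * l)) := by
  by_contra hcon
  push Not at hcon
  have hm' : (1 : ℝ) ≤ m := by exact_mod_cast hm
  have hA' : ‖∑ j, Y j‖ ≤ m / (32 * l) :=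
    (pow_le_pow_iff_left₀ (norm_nonneg _) (by positivity) two_ne_zero).1 hA
  have hC' : ‖∑ j, Y j ^ 2‖ ≤ m / 4 :=
    (pow_le_pow_iff_left₀ (norm_nonneg _) (by positivity) two_ne_zero).1 hC
  have hB' : -(m / 4 : ℝ) ≤ ∑ j, (‖Y j‖ ^ 2 - 1) := (abs_le_of_sq_le_sq' hB (by positivity)).1
  have h1 : ∑ j, (Y j).re ≤ m / (32 * l) := by
    rw [← Complex.re_sum]; exact (Complex.re_le_norm _).trans hA'
  have h2 : -(m / 4 : ℝ) ≤ ∑ j, (Y j ^ 2).re := by
    rw [← Complex.re_sum]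
    have := Complex.abs_re_le_norm (∑ j, Y j ^ 2)
    have := (abs_le.1 (this.trans hC')).1
    exact this
  have h3 : ∀ j, 2 * (Y j).re ^ 2 = (‖Y j‖ ^ 2 - 1) + (Y j ^ 2).re + 1 := by
    intro j
    rw [Complex.sq_norm, Complex.normSq_apply, sq (Y j), Complex.mul_re]; ring
  have h4 : ∀ j, (Y j).re ^ 2 ≤ l * ((Y j).re + 2 * (1 / (32 * l))) +
      ‖Y j‖ ^ 2 * ‖Y j‖ ^ 2 / l ^ 2 := by
    intro j
    have a1 := sq_le_aux (Y j).re l hl
    have a2 : |(Y j).re| ≤ (Y j).re + 2 * (1 / (32 * l)) := by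
      have hp : 0 < 1 / (32 * l) := by positivity
      have := hcon j
      rw [abs_le]; constructor <;> linarith
    have a3 : (Y j).re ^ 4 ≤ ‖Y j‖ ^ 2 * ‖Y j‖ ^ 2 := by
      have : (Y j).re ^ 2 ≤ ‖Y j‖ ^ 2 := by
        rw [← sq_abs]; exact pow_le_pow_left₀ (abs_nonneg _) (Complex.abs_re_le_norm _) 2
      calc (Y j).re ^ 4 = (Y j).re ^ 2 * (Y j).re ^ 2 := by ring
        _ ≤ _ := mul_le_mul this this (sq_nonneg _) (sq_nonneg _)
    have a4 := mul_le_mul_of_nonneg_left a2 hl.le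
    have a5 : (Y j).re ^ 4 / l ^ 2 ≤ ‖Y j‖ ^ 2 * ‖Y j‖ ^ 2 / l ^ 2 :=
      div_le_div_of_nonneg_right a3 (by positivity)
    linarith
  have h5 : 2 * ∑ j, (Y j).re ^ 2 = ∑ j, (‖Y j‖ ^ 2 - 1) + ∑ j, (Y j ^ 2).re + m := by
    rw [Finset.mul_sum, Finset.sum_congr rfl fun j _ => h3 j, Finset.sum_add_distrib,
      Finset.sum_add_distrib]
    simp
  have h6 : ∑ j, (Y j).re ^ 2 ≤ l * (∑ j, (Y j).re) + m / 16 +
      (∑ j, ‖Y j‖ ^ 2 * ‖Y j‖ ^ 2) / l ^ 2 := by
    refine (Finset.sum_le_sum fun j _ => h4 j).trans (le_of_eq ?_)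
    rw [Finset.sum_add_distrib, ← Finset.mul_sum, Finset.sum_add_distrib, ← Finset.sum_div]
    simp only [Finset.sum_const, Finset.card_univ, Fintype.card_fin, nsmul_eq_mul]
    field_simp; ring
  have h7 : l * (∑ j, (Y j).re) ≤ m / 32 := by
    calc l * (∑ j, (Y j).re) ≤ l * (m / (32 * l)) := mul_le_mul_of_nonneg_left h1 hl.le
      _ = m / 32 := by field_simp
  have h8 : (∑ j, ‖Y j‖ ^ 2 * ‖Y j‖ ^ 2) / l ^ 2 ≤ m / 8 := by
    rw [div_le_iff₀ (by positivity)]; linarith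
  linarith

/-! ### Markov -/

lemma markov (W : ℝ → ℝ) (hW : Continuous W) (h0 : ∀ t, 0 ≤ W t) (a b M : ℝ) (hab : a ≤ b)
    (hM : ∫ t in a..b, W t ≤ M) :
    volume {t | t ∈ Set.Icc a b ∧ 1 ≤ W t} ≤ ENNReal.ofReal M := by
  have hint : IntegrableOn W (Set.Icc a b) := hW.continuousOn.integrableOn_Icc
  have h1 := mul_meas_ge_le_integral_of_nonneg (μ := volume.restrict (Set.Icc a b))
    (Filter.Eventually.of_forall h0) hint 1
  have hmeas : MeasurableSet {t | 1 ≤ W t} := measurableSet_le measurable_const hW.measurable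
  have h2 : (volume.restrict (Set.Icc a b)) {t | 1 ≤ W t} =
      volume {t | t ∈ Set.Icc a b ∧ 1 ≤ W t} := by
    rw [Measure.restrict_apply hmeas]; congr 1; ext t; simp [and_comm]
  have h3 : ∫ t in Set.Icc a b, W t = ∫ t in a..b, W t := by
    rw [intervalIntegral.integral_of_le hab, integral_Icc_eq_integral_Ioc]
  have hfin : volume {t | t ∈ Set.Icc a b ∧ 1 ≤ W t} ≠ ⊤ :=
    ne_top_of_le_ne_top (by simp) (measure_mono (t := Set.Icc a b) fun t ht => ht.1)
  rw [one_mul, Measure.real, h2, h3] at h1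
  rw [← ENNReal.ofReal_toReal hfin]
  exact ENNReal.ofReal_le_ofReal (h1.trans hM)

/-! ### Means of the four test functions -/

lemma norm_sum_sq {m : ℕ} (z : Fin m → ℂ) :
    ‖∑ j, z j‖ ^ 2 = ∑ i, ∑ j, (z i * (starRingEnd ℂ) (z j)).re := by
  have : ((‖∑ j, z j‖ ^ 2 : ℝ) : ℂ) = ∑ i, ∑ j, z i * (starRingEnd ℂ) (z j) := by
    rw [← Finset.sum_mul_sum, ← map_sum, Complex.mul_conj, Complex.normSq_eq_norm_sq]
  have h2 := congrArg Complex.re this
  rw [Complex.ofReal_re] at h2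
  rw [h2, Complex.re_sum]
  exact Finset.sum_congr rfl fun i _ => Complex.re_sum _ _

lemma int_sum2 {m : ℕ} (f : Fin m → Fin m → ℝ → ℝ) (hf : ∀ i j, Continuous (f i j)) (a b : ℝ) :
    ∫ t in a..b, ∑ i, ∑ j, f i j t = ∑ i, ∑ j, ∫ t in a..b, f i j t := by
  rw [intervalIntegral.integral_finsetSum fun i _ =>
    (continuous_finsetSum _ fun j _ => hf i j).intervalIntegrable _ _]
  exact Finset.sum_congr rfl fun i _ =>
    intervalIntegral.integral_finsetSum fun j _ => (hf i j).intervalIntegrable _ _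

lemma sum2_le {m : ℕ} (g : Fin m → Fin m → ℝ) (α β : ℝ)
    (h : ∀ i j, g i j ≤ (if i = j then α else 0) + β) :
    ∑ i, ∑ j, g i j ≤ m * α + m ^ 2 * β := by
  refine (Finset.sum_le_sum fun i _ => Finset.sum_le_sum fun j _ => h i j).trans (le_of_eq ?_)
  simp only [Finset.sum_add_distrib, Finset.sum_ite_eq, Finset.mem_univ, if_true,
    Finset.sum_const, Finset.card_univ, Fintype.card_fin, nsmul_eq_mul]
  ring

lemma prob_core {m : ℕ} (hm : 1 ≤ m) (Y : Fin m → ℝ → ℂ) (hY : ∀ j, Continuous (Y j))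
    (T δ l ε : ℝ) (hT : 0 < T) (hl : 0 < l) (hδ0 : 0 ≤ δ) (hδ : 3 * m ^ 2 * δ ≤ 1)
    (h1 : ∀ i j, |(∫ t in T..2 * T, (Y i t * (starRingEnd ℂ) (Y j t)).re) -
      (if i = j then T else 0)| ≤ δ * T)
    (h2 : ∀ i j, ∫ t in T..2 * T, ‖Y i t‖ ^ 2 * ‖Y j t‖ ^ 2 ≤
      T + (if i = j then T else 0) + δ * T)
    (h3 : ∀ i j, i ≠ j → ∫ t in T..2 * T, (Y i t ^ 2 * (starRingEnd ℂ) (Y j t ^ 2)).re ≤ δ * T)
    (hε : (2048 * l ^ 2 + 80) / m + 24 / l ^ 2 ≤ ε) :
    ∃ S : Set ℝ, volume S ≤ ENNReal.ofReal (ε * T) ∧ ∀ t : ℝ, T ≤ t → t ≤ 2 * T → t ∉ S →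
      ∃ j, (Y j t).re ≤ -(1 / (32 * l)) := by
  have hm' : (1 : ℝ) ≤ m := by exact_mod_cast hm
  have hδT : (m : ℝ) ^ 2 * (3 * (δ * T)) ≤ T := by nlinarith
  have hδT' : (m : ℝ) ^ 2 * (δ * T) ≤ T := by
    have : 0 ≤ (m : ℝ) ^ 2 * (δ * T) := by positivity
    nlinarith
  have hmT : T ≤ m * T := by nlinarith
  set A : ℝ → ℝ := fun t => ‖∑ j, Y j t‖ ^ 2 with hAdef
  set B : ℝ → ℝ := fun t => (∑ j, (‖Y j t‖ ^ 2 - 1)) ^ 2 with hBdef
  set C : ℝ → ℝ := fun t => ‖∑ j, Y j t ^ 2‖ ^ 2 with hCdef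
  set D : ℝ → ℝ := fun t => ∑ j, ‖Y j t‖ ^ 2 * ‖Y j t‖ ^ 2 with hDdef
  have cA : Continuous A := by rw [hAdef]; fun_prop
  have cB : Continuous B := by rw [hBdef]; fun_prop
  have cC : Continuous C := by rw [hCdef]; fun_prop
  have cD : Continuous D := by rw [hDdef]; fun_prop
  have iA : ∫ t in T..2 * T, A t ≤ 2 * m * T := by
    simp only [hAdef, norm_sum_sq]
    rw [int_sum2 (fun i j t => (Y i t * (starRingEnd ℂ) (Y j t)).re)
      (fun i j => Complex.continuous_re.comp ((hY i).mul (continuous_conj.comp (hY j))))]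
    refine (sum2_le _ T (δ * T) fun i j => ?_).trans (by linarith)
    have := (abs_le.1 (h1 i j)).2
    linarith
  have hsq : ∀ j, T - δ * T ≤ ∫ t in T..2 * T, ‖Y j t‖ ^ 2 := by
    intro j
    have := (abs_le.1 (h1 j j)).1
    simp only [if_true, Complex.mul_conj, Complex.normSq_eq_norm_sq, Complex.ofReal_re] at this
    linarith
  have iB : ∫ t in T..2 * T, B t ≤ 2 * m * T := by
    have e : ∀ t, B t = ∑ i, ∑ j, (‖Y i t‖ ^ 2 * ‖Y j t‖ ^ 2 - ‖Y i t‖ ^ 2 - ‖Y j t‖ ^ 2 + 1) := by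
      intro t
      simp only [hBdef]
      rw [sq, Finset.sum_mul_sum]
      exact Finset.sum_congr rfl fun i _ => Finset.sum_congr rfl fun j _ => by ring
    simp only [e]
    rw [int_sum2 (fun i j t => ‖Y i t‖ ^ 2 * ‖Y j t‖ ^ 2 - ‖Y i t‖ ^ 2 - ‖Y j t‖ ^ 2 + 1)
      (fun i j => by have := hY i; have := hY j; fun_prop)]
    refine (sum2_le _ T (3 * (δ * T)) fun i j => ?_).trans (by linarith)
    have ci : Continuous fun t => ‖Y i t‖ ^ 2 := by have := hY i; fun_prop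
    have cj : Continuous fun t => ‖Y j t‖ ^ 2 := by have := hY j; fun_prop
    rw [intervalIntegral.integral_add ((((ci.fun_mul cj).fun_sub ci).fun_sub cj).intervalIntegrable _ _)
      (continuous_const.intervalIntegrable _ _),
      intervalIntegral.integral_sub (((ci.fun_mul cj).fun_sub ci).intervalIntegrable _ _)
        (cj.intervalIntegrable _ _),
      intervalIntegral.integral_sub ((ci.fun_mul cj).intervalIntegrable _ _)
        (ci.intervalIntegrable _ _)]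
    have a1 := h2 i j
    have a2 := hsq i
    have a3 := hsq j
    simp only [intervalIntegral.integral_const, smul_eq_mul, mul_one]
    linarith
  have iC : ∫ t in T..2 * T, C t ≤ 3 * m * T := by
    simp only [hCdef, norm_sum_sq]
    rw [int_sum2 (fun i j t => (Y i t ^ 2 * (starRingEnd ℂ) (Y j t ^ 2)).re)
      (fun i j => Complex.continuous_re.comp
        (((hY i).pow 2).mul (continuous_conj.comp ((hY j).pow 2))))]
    refine (sum2_le _ (2 * T) (δ * T) fun i j => ?_).trans (by linarith)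
    by_cases hij : i = j
    · subst hij
      have := h2 i i
      simp only [if_true, Complex.mul_conj, Complex.normSq_eq_norm_sq, Complex.ofReal_re,
        norm_pow] at this ⊢
      simp only [sq (‖Y i _‖ ^ 2)]
      linarith
    · rw [if_neg hij, zero_add]; exact h3 i j hij
  have iD : ∫ t in T..2 * T, D t ≤ 3 * m * T := by
    simp only [hDdef]
    rw [intervalIntegral.integral_finsetSum fun j _ =>
      (by have := hY j; fun_prop : Continuous fun t => ‖Y j t‖ ^ 2 * ‖Y j t‖ ^ 2).intervalIntegrable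
        _ _]
    have : ∀ j, ∫ t in T..2 * T, ‖Y j t‖ ^ 2 * ‖Y j t‖ ^ 2 ≤ 3 * T := by
      intro j
      have := h2 j j
      rw [if_pos rfl] at this
      have h5 : δ * T ≤ (m : ℝ) ^ 2 * (δ * T) :=
        le_mul_of_one_le_left (by positivity) (one_le_pow₀ hm')
      linarith
    refine (Finset.sum_le_sum fun j _ => this j).trans (le_of_eq ?_)
    simp only [Finset.sum_const, Finset.card_univ, Fintype.card_fin, nsmul_eq_mul]; ring
  have pa : 0 < ((m : ℝ) / (32 * l)) ^ 2 := by positivity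
  have pb : 0 < ((m : ℝ) / 4) ^ 2 := by positivity
  have pd' : 0 < (m : ℝ) * (l ^ 2 / 8) := by positivity
  set W : ℝ → ℝ := fun t => A t / (m / (32 * l)) ^ 2 + B t / (m / 4 : ℝ) ^ 2 +
    C t / (m / 4 : ℝ) ^ 2 + D t / (m * (l ^ 2 / 8)) with hWdef
  have nA : ∀ t, 0 ≤ A t / (m / (32 * l)) ^ 2 := fun t => by simp only [hAdef]; positivity
  have nB : ∀ t, 0 ≤ B t / (m / 4 : ℝ) ^ 2 := fun t => by simp only [hBdef]; positivity
  have nC : ∀ t, 0 ≤ C t / (m / 4 : ℝ) ^ 2 := fun t => by simp only [hCdef]; positivity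
  have nD : ∀ t, 0 ≤ D t / (m * (l ^ 2 / 8)) := fun t => by simp only [hDdef]; positivity
  have iW : ∫ t in T..2 * T, W t ≤ ε * T := by
    simp only [hWdef]
    have c1 : Continuous fun t => A t / (m / (32 * l)) ^ 2 := cA.div_const _
    have c2 : Continuous fun t => B t / (m / 4 : ℝ) ^ 2 := cB.div_const _
    have c3 : Continuous fun t => C t / (m / 4 : ℝ) ^ 2 := cC.div_const _
    have c4 : Continuous fun t => D t / (m * (l ^ 2 / 8)) := cD.div_const _
    rw [intervalIntegral.integral_add (((c1.fun_add c2).fun_add c3).intervalIntegrable _ _)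
      (c4.intervalIntegrable _ _),
      intervalIntegral.integral_add ((c1.fun_add c2).intervalIntegrable _ _)
      (c3.intervalIntegrable _ _),
      intervalIntegral.integral_add (c1.intervalIntegrable _ _) (c2.intervalIntegrable _ _)]
    simp only [intervalIntegral.integral_div]
    have b1 := div_le_div_of_nonneg_right iA pa.le
    have b2 := div_le_div_of_nonneg_right iB pb.le
    have b3 := div_le_div_of_nonneg_right iC pb.le
    have b4 := div_le_div_of_nonneg_right iD pd'.le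
    have e : 2 * m * T / (m / (32 * l)) ^ 2 + 2 * m * T / (m / 4 : ℝ) ^ 2 +
        3 * m * T / (m / 4 : ℝ) ^ 2 + 3 * m * T / (m * (l ^ 2 / 8)) =
        ((2048 * l ^ 2 + 80) / m + 24 / l ^ 2) * T := by
      field_simp; ring
    have := mul_le_mul_of_nonneg_right hε hT.le
    linarith
  refine ⟨{t | t ∈ Set.Icc T (2 * T) ∧ 1 ≤ W t}, markov W ?_ ?_ _ _ _ (by linarith) iW, ?_⟩
  · rw [hWdef]; fun_prop
  · intro t
    have := nA t; have := nB t; have := nC t; have := nD t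
    simp only [hWdef]; linarith
  · intro t ht1 ht2 hS
    have hW : W t < 1 := by
      by_contra h
      exact hS ⟨⟨ht1, ht2⟩, not_lt.1 h⟩
    have := nA t; have := nB t; have := nC t; have := nD t
    simp only [hWdef] at hW
    refine det_step hm (fun j => Y j t) l hl ?_ ?_ ?_ ?_
    · exact (div_le_one pa).1 (by linarith : A t / _ ≤ 1)
    · exact (div_le_one pb).1 (by linarith : B t / _ ≤ 1)
    · exact (div_le_one pb).1 (by linarith : C t / _ ≤ 1)
    · exact (div_le_one pd').1 (by linarith : D t / _ ≤ 1)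

/-! ### Products of prime sums -/

/-- The number of representations `n = p q`. -/
def cnt (P Q : Finset ℕ) (n : ℕ) : ℕ := ((P ×ˢ Q).filter fun x => x.1 * x.2 = n).card

/-- The products `p q`. -/
def im2 (P Q : Finset ℕ) : Finset ℕ := (P ×ˢ Q).image fun x => x.1 * x.2

lemma sum_im2 {M : Type*} [Semiring M] (P Q : Finset ℕ) (f : ℕ → M) :
    ∑ n ∈ im2 P Q, (cnt P Q n : M) * f n = ∑ p ∈ P, ∑ q ∈ Q, f (p * q) := by
  rw [← Finset.sum_product' (f := fun p q => f (p * q)),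
    Finset.sum_comp f (fun x : ℕ × ℕ => x.1 * x.2)]
  simp [im2, cnt]

lemma np_mul (z : ℂ) {p q : ℕ} (hp : p ≠ 0) (hq : q ≠ 0) : np z (p * q) = np z p * np z q := by
  unfold np
  rw [← Complex.exp_add, Nat.cast_mul, Real.log_mul (by exact_mod_cast hp) (by exact_mod_cast hq)]
  congr 1; push_cast; ring

lemma ds_mul (P Q : Finset ℕ) (hP : ∀ p ∈ P, p.Prime) (hQ : ∀ q ∈ Q, q.Prime) (w : ℂ) :
    ds (fun _ => 1) P w * ds (fun _ => 1) Q w = ds (fun n => (cnt P Q n : ℂ)) (im2 P Q) w := by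
  unfold ds
  rw [sum_im2, Finset.sum_mul_sum]
  refine Finset.sum_congr rfl fun p hp => Finset.sum_congr rfl fun q hq => ?_
  rw [np_mul _ (hP p hp).ne_zero (hQ q hq).ne_zero]; ring

lemma prime_mul_cases {p q p' q' : ℕ} (hp : p.Prime) (hp' : p'.Prime) (hq' : q'.Prime)
    (h : p * q = p' * q') : (p = p' ∧ q = q') ∨ (p = q' ∧ q = p') := by
  have : p ∣ p' * q' := ⟨q, h.symm⟩
  rcases (Nat.Prime.dvd_mul hp).1 this with h1 | h1
  · have e := (Nat.prime_dvd_prime_iff_eq hp hp').1 h1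
    subst e
    exact Or.inl ⟨rfl, Nat.eq_of_mul_eq_mul_left hp.pos h⟩
  · have e := (Nat.prime_dvd_prime_iff_eq hp hq').1 h1
    subst e
    rw [mul_comm p' p] at h
    exact Or.inr ⟨rfl, Nat.eq_of_mul_eq_mul_left hp.pos h⟩

lemma cnt_le_two (P Q : Finset ℕ) (hP : ∀ p ∈ P, p.Prime) (hQ : ∀ q ∈ Q, q.Prime) (n : ℕ) :
    cnt P Q n ≤ 2 := by
  unfold cnt
  rcases ((P ×ˢ Q).filter fun x => x.1 * x.2 = n).eq_empty_or_nonempty with h | ⟨x, hx⟩
  · simp [h]
  · have hsub : ((P ×ˢ Q).filter fun x => x.1 * x.2 = n) ⊆ {x, x.swap} := by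
      intro y hy
      simp only [Finset.mem_filter, Finset.mem_product] at hx hy
      rcases prime_mul_cases (hP _ hy.1.1) (hP _ hx.1.1) (hQ _ hx.1.2) (hy.2.trans hx.2.symm) with
        h | h
      · simp [Prod.ext_iff, h.1, h.2]
      · simp [Prod.ext_iff, h.1, h.2]
    exact (Finset.card_le_card hsub).trans Finset.card_le_two

lemma cnt_le_one (P Q : Finset ℕ) (hP : ∀ p ∈ P, p.Prime) (hQ : ∀ q ∈ Q, q.Prime)
    (hd : Disjoint P Q) (n : ℕ) : cnt P Q n ≤ 1 := by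
  unfold cnt
  refine Finset.card_le_one.2 fun y hy x hx => ?_
  simp only [Finset.mem_filter, Finset.mem_product] at hx hy
  rcases prime_mul_cases (hP _ hy.1.1) (hP _ hx.1.1) (hQ _ hx.1.2) (hy.2.trans hx.2.symm) with
    h | h
  · exact Prod.ext h.1 h.2
  · exact absurd (h.1 ▸ hx.1.2) (Finset.disjoint_left.1 hd hy.1.1)

lemma im2_inter (P Q : Finset ℕ) (hP : ∀ p ∈ P, p.Prime) (hQ : ∀ q ∈ Q, q.Prime)
    (hd : Disjoint P Q) : im2 P P ∩ im2 Q Q = ∅ := by
  rw [Finset.eq_empty_iff_forall_notMem]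
  intro n hn
  simp only [im2, Finset.mem_inter, Finset.mem_image, Finset.mem_product] at hn
  obtain ⟨⟨x, hx, e1⟩, ⟨y, hy, e2⟩⟩ := hn
  rcases prime_mul_cases (hP _ hx.1) (hQ _ hy.1) (hQ _ hy.2) (e1.trans e2.symm) with h | h
  · exact Finset.disjoint_left.1 hd hx.1 (h.1 ▸ hy.1)
  · exact Finset.disjoint_left.1 hd hx.1 (h.1 ▸ hy.2)

lemma sum_cnt_sq (P Q : Finset ℕ) (k : ℕ) (hk : ∀ n, cnt P Q n ≤ k) :
    ∑ n ∈ im2 P Q, (cnt P Q n : ℝ) * (cnt P Q n : ℝ) / n ≤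
      k * ((∑ p ∈ P, 1 / (p : ℝ)) * ∑ q ∈ Q, 1 / (q : ℝ)) := by
  have e : (∑ p ∈ P, 1 / (p : ℝ)) * ∑ q ∈ Q, 1 / (q : ℝ) =
      ∑ n ∈ im2 P Q, (cnt P Q n : ℝ) * (1 / (n : ℝ)) := by
    rw [sum_im2 P Q fun n => 1 / (n : ℝ), Finset.sum_mul_sum]
    refine Finset.sum_congr rfl fun p _ => Finset.sum_congr rfl fun q _ => ?_
    push_cast; rw [one_div_mul_one_div]
  rw [e, Finset.mul_sum]
  refine Finset.sum_le_sum fun n _ => ?_
  have : (cnt P Q n : ℝ) ≤ k := by exact_mod_cast hk n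
  calc (cnt P Q n : ℝ) * (cnt P Q n : ℝ) / n = cnt P Q n * ((cnt P Q n : ℝ) * (1 / (n : ℝ))) := by
        ring
    _ ≤ _ := mul_le_mul_of_nonneg_right this (by positivity)

lemma cont_ds (c : ℕ → ℂ) (S : Finset ℕ) : Continuous fun t : ℝ => ds c S t := by
  unfold ds np; fun_prop

lemma int_re (F : ℝ → ℂ) (hF : Continuous F) (a b : ℝ) :
    ∫ t in a..b, (F t).re = (∫ t in a..b, F t).re :=
  Complex.reCLM.intervalIntegral_comp_comm (hF.intervalIntegrable a b)

/-- The mean value theorem at height `T` with relative error `δ`. -/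
def MV (T δ : ℝ) (N : ℕ) : Prop := ∀ (c d : ℕ → ℝ) (S S' : Finset ℕ), S ⊆ Finset.Icc 1 N →
  S' ⊆ Finset.Icc 1 N → (∀ n ∈ S, |c n| ≤ 2) → (∀ n ∈ S', |d n| ≤ 2) →
  |(∫ t in T..2 * T, (ds (fun n => c n) S t * (starRingEnd ℂ) (ds (fun n => d n) S' t)).re) -
    T * ∑ n ∈ S ∩ S', c n * d n / n| ≤ δ * T

lemma mv_ev (h : MvtStmt) (δ : ℝ) (hδ : 0 < δ) : ∀ᶠ T : ℝ in atTop, MV T δ ⌊T ^ (1 / 2 : ℝ)⌋₊ := by
  obtain ⟨K, hK, h⟩ := h
  have hlim : Tendsto (fun T : ℝ => 4 * K * (T ^ (-(1 / 2) : ℝ) + Real.log T / T ^ (1 / 2 : ℝ)))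
      atTop (𝓝 (4 * K * (0 + 0))) :=
    ((tendsto_rpow_neg_atTop (by norm_num)).add
      (isLittleO_log_rpow_atTop (by norm_num : (0 : ℝ) < 1 / 2)).tendsto_div_nhds_zero).const_mul _
  rw [add_zero, mul_zero] at hlim
  filter_upwards [hlim.eventually (gt_mem_nhds hδ), eventually_ge_atTop (1 : ℝ)] with T hT hT1
  intro c d S S' hS hS' hc hd
  have hT0 : 0 < T := by linarith
  have h1 := h ⌊T ^ (1 / 2 : ℝ)⌋₊ (fun n => c n) (fun n => d n) S S' 2 2 T (2 * T) hS hS'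
    (by norm_num) (by norm_num) (by simpa using hc) (by simpa using hd)
  rw [int_re (fun t => ds (fun n => c n) S t * (starRingEnd ℂ) (ds (fun n => d n) S' t))
    ((cont_ds _ _).fun_mul (continuous_conj.comp (cont_ds _ _)))]
  have e : T * ∑ n ∈ S ∩ S', c n * d n / n = (((2 * T - T : ℝ) : ℂ) *
      ∑ n ∈ S ∩ S', (c n : ℂ) * (starRingEnd ℂ) (d n : ℂ) / n).re := by
    have : ((2 * T - T : ℝ) : ℂ) * ∑ n ∈ S ∩ S', (c n : ℂ) * (starRingEnd ℂ) (d n : ℂ) / n =
        ((T * ∑ n ∈ S ∩ S', c n * d n / n : ℝ) : ℂ) := by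
      simp only [Complex.conj_ofReal]; push_cast; ring
    rw [this, Complex.ofReal_re]
  rw [e, ← Complex.sub_re]
  refine (Complex.abs_re_le_norm _).trans (h1.trans ?_)
  set r := T ^ (1 / 2 : ℝ) with hr
  have hr1 : 1 ≤ r := Real.one_le_rpow hT1 (by norm_num)
  have hrr : r * r = T := by rw [hr, ← Real.rpow_add hT0]; norm_num
  have hN : (⌊r⌋₊ : ℝ) ≤ r := Nat.floor_le (by linarith)
  have hN1 : (1 : ℝ) ≤ ⌊r⌋₊ := by exact_mod_cast Nat.floor_pos.2 hr1
  have hlog : Real.log ⌊r⌋₊ ≤ Real.log T :=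
    Real.log_le_log (by linarith) (hN.trans (by nlinarith))
  have hlog0 : 0 ≤ Real.log ⌊r⌋₊ := Real.log_nonneg hN1
  rw [Real.rpow_neg hT0.le, ← hr] at hT
  have e2 : 4 * K * (r⁻¹ + Real.log T / r) * T = K * 2 * 2 * r * (1 + Real.log T) := by
    have : r ≠ 0 := by linarith
    generalize Real.log T = L
    rw [← hrr]; field_simp; ring
  calc K * 2 * 2 * (⌊r⌋₊ : ℝ) * (1 + Real.log ⌊r⌋₊) ≤ K * 2 * 2 * r * (1 + Real.log T) := by
        gcongr
    _ = _ := e2.symm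
    _ ≤ δ * T := mul_le_mul_of_nonneg_right hT.le hT0.le

theorem prob : MvtStmt → ProbStmt := by
  intro h ε hε
  set l : ℝ := √(48 / ε) with hl
  have hl0 : 0 < l := Real.sqrt_pos.2 (by positivity)
  have hl2 : l ^ 2 = 48 / ε := Real.sq_sqrt (by positivity)
  obtain ⟨m, hm⟩ := exists_nat_ge (max 1 (2 * (2048 * l ^ 2 + 80) / ε))
  have hm1 : (1 : ℝ) ≤ m := (le_max_left _ _).trans hm
  have hm1' : 1 ≤ m := by exact_mod_cast hm1
  have hεm : (2048 * l ^ 2 + 80) / m + 24 / l ^ 2 ≤ ε := by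
    have a1 : (2048 * l ^ 2 + 80) / m ≤ ε / 2 := by
      have := (le_max_right _ _).trans hm
      rw [div_le_iff₀ hε] at this
      rw [div_le_iff₀ (by linarith)]; linarith
    have a2 : 24 / l ^ 2 = ε / 2 := by rw [hl2]; field_simp; norm_num
    linarith
  refine ⟨1 / (32 * l), m, by positivity, hm1', ?_⟩
  set δ : ℝ := 1 / (3 * m ^ 2) with hδ
  have hδ0 : 0 < δ := by positivity
  filter_upwards [mv_ev h δ hδ0, eventually_ge_atTop (1 : ℝ)] with T hmv hT1
  intro P hP hdis hs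
  have hT0 : 0 < T := by linarith
  have hpr : ∀ j, ∀ p ∈ P j, p.Prime := fun j p hp => (hP j p hp).1
  have hq : T ^ (1 / 4 : ℝ) * T ^ (1 / 4 : ℝ) = T ^ (1 / 2 : ℝ) := by
    rw [← Real.rpow_add hT0]; norm_num
  have hq1 : 1 ≤ T ^ (1 / 4 : ℝ) := Real.one_le_rpow hT1 (by norm_num)
  have sub1 : ∀ j, P j ⊆ Finset.Icc 1 ⌊T ^ (1 / 2 : ℝ)⌋₊ := by
    intro j p hp
    refine Finset.mem_Icc.2 ⟨(hpr j p hp).pos, Nat.le_floor ?_⟩
    have := (hP j p hp).2
    nlinarith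
  have sub2 : ∀ i j, im2 (P i) (P j) ⊆ Finset.Icc 1 ⌊T ^ (1 / 2 : ℝ)⌋₊ := by
    intro i j n hn
    simp only [im2, Finset.mem_image, Finset.mem_product] at hn
    obtain ⟨x, hx, rfl⟩ := hn
    refine Finset.mem_Icc.2 ⟨Nat.mul_pos (hpr _ _ hx.1).pos (hpr _ _ hx.2).pos, Nat.le_floor ?_⟩
    rw [← hq, Nat.cast_mul]
    exact mul_le_mul (hP _ _ hx.1).2 (hP _ _ hx.2).2 (by positivity) (by positivity)
  set σ : Fin m → ℝ := fun j => ∑ p ∈ P j, 1 / (p : ℝ) with hσ
  set s : Fin m → ℝ := fun j => √(σ j) with hsdef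
  have hσ1 : ∀ j, 1 ≤ σ j := hs
  have hs1 : ∀ j, 1 ≤ s j := fun j => Real.one_le_sqrt.2 (hσ1 j)
  have hs2 : ∀ j, s j ^ 2 = σ j := fun j => Real.sq_sqrt (by linarith [hσ1 j])
  set X : Fin m → ℝ → ℂ := fun j t => ds (fun _ => 1) (P j) t with hX
  have cX : ∀ j, Continuous (X j) := fun j => cont_ds _ _
  have hXX : ∀ i j t, X i t * X j t =
      ds (fun n => ((cnt (P i) (P j) n : ℝ) : ℂ)) (im2 (P i) (P j)) t := by
    intro i j t
    simp only [hX, ds_mul _ _ (hpr i) (hpr j), Complex.ofReal_natCast]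
  have hc2 : ∀ i j n, |(cnt (P i) (P j) n : ℝ)| ≤ 2 := by
    intro i j n
    rw [Nat.abs_cast]; exact_mod_cast cnt_le_two _ _ (hpr i) (hpr j) n
  have hδT : 0 ≤ δ * T := by positivity
  obtain ⟨S, hS, hS'⟩ := prob_core hm1' (fun j t => X j t / (s j : ℂ))
    (fun j => (cX j).div_const _) T δ l ε hT0 hl0 hδ0.le (by rw [hδ]; field_simp; rfl)
    (by
      intro i j
      have a := hmv (fun _ => 1) (fun _ => 1) (P i) (P j) (sub1 i) (sub1 j) (by simp) (by simp)
      have e : ∀ t : ℝ, (X i t / (s i : ℂ) * (starRingEnd ℂ) (X j t / (s j : ℂ))).re =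
          (X i t * (starRingEnd ℂ) (X j t)).re / (s i * s j) := by
        intro t
        rw [map_div₀, Complex.conj_ofReal, div_mul_div_comm, ← Complex.ofReal_mul,
          Complex.div_ofReal_re]
      simp only [e, intervalIntegral.integral_div]
      simp only [Complex.ofReal_one, mul_one] at a
      have hss : 1 ≤ s i * s j := one_le_mul_of_one_le_of_one_le (hs1 i) (hs1 j)
      have e2 : (if i = j then T else 0) =
          (T * ∑ n ∈ P i ∩ P j, 1 / (n : ℝ)) / (s i * s j) := by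
        by_cases hij : i = j
        · subst hij
          rw [if_pos rfl, Finset.inter_self, ← sq, hs2]
          have := hσ1 i
          change T = T * σ i / σ i
          field_simp
        · rw [if_neg hij, Finset.disjoint_iff_inter_eq_empty.1 (hdis i j hij)]; simp
      rw [e2, ← sub_div, abs_div, abs_of_pos (by linarith : 0 < s i * s j)]
      exact (div_le_self (abs_nonneg _) hss).trans a)
    (by
      intro i j
      have a := hmv (fun n => cnt (P i) (P j) n) (fun n => cnt (P i) (P j) n) _ _ (sub2 i j)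
        (sub2 i j) (fun n _ => hc2 i j n) (fun n _ => hc2 i j n)
      simp only [← hXX, Complex.mul_conj, Complex.normSq_eq_norm_sq, Complex.ofReal_re,
        Finset.inter_self] at a
      have e : ∀ t : ℝ, ‖X i t / (s i : ℂ)‖ ^ 2 * ‖X j t / (s j : ℂ)‖ ^ 2 =
          ‖X i t * X j t‖ ^ 2 / (σ i * σ j) := by
        intro t
        rw [norm_div, norm_div, norm_mul, Complex.norm_real, Complex.norm_real, div_pow, div_pow,
          Real.norm_eq_abs, Real.norm_eq_abs, sq_abs, sq_abs, hs2, hs2, mul_pow, div_mul_div_comm]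
      simp only [e, intervalIntegral.integral_div]
      have hss : 1 ≤ σ i * σ j := one_le_mul_of_one_le_of_one_le (hσ1 i) (hσ1 j)
      rw [div_le_iff₀ (by linarith)]
      have a2 := (abs_le.1 a).2
      have a3 : δ * T ≤ δ * T * (σ i * σ j) := le_mul_of_one_le_right hδT hss
      by_cases hij : i = j
      · have a4 := mul_le_mul_of_nonneg_left
          (sum_cnt_sq (P i) (P j) 2 (cnt_le_two _ _ (hpr i) (hpr j))) hT0.le
        rw [if_pos hij]
        change _ ≤ T * (((2 : ℕ) : ℝ) * (σ i * σ j)) at a4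
        push_cast at a4
        linarith
      · have a4 := mul_le_mul_of_nonneg_left
          (sum_cnt_sq (P i) (P j) 1 (cnt_le_one _ _ (hpr i) (hpr j) (hdis i j hij))) hT0.le
        rw [if_neg hij]
        change _ ≤ T * (((1 : ℕ) : ℝ) * (σ i * σ j)) at a4
        push_cast at a4
        linarith)
    (by
      intro i j hij
      have a := hmv (fun n => cnt (P i) (P i) n) (fun n => cnt (P j) (P j) n) _ _ (sub2 i i)
        (sub2 j j) (fun n _ => hc2 i i n) (fun n _ => hc2 j j n)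
      simp only [← hXX, im2_inter _ _ (hpr i) (hpr j) (hdis i j hij), Finset.sum_empty, mul_zero,
        sub_zero] at a
      have e : ∀ t : ℝ, ((X i t / (s i : ℂ)) ^ 2 * (starRingEnd ℂ) ((X j t / (s j : ℂ)) ^ 2)).re =
          (X i t * X i t * (starRingEnd ℂ) (X j t * X j t)).re / (σ i * σ j) := by
        intro t
        rw [div_pow, div_pow, ← Complex.ofReal_pow, ← Complex.ofReal_pow, hs2, hs2, map_div₀,
          Complex.conj_ofReal, div_mul_div_comm, ← Complex.ofReal_mul, Complex.div_ofReal_re,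
          sq, sq]
      simp only [e, intervalIntegral.integral_div]
      have hss : 1 ≤ σ i * σ j := one_le_mul_of_one_le_of_one_le (hσ1 i) (hσ1 j)
      rw [div_le_iff₀ (by linarith)]
      have a2 := (abs_le.1 a).2
      have a3 : δ * T ≤ δ * T * (σ i * σ j) := le_mul_of_one_le_right hδT hss
      linarith)
    hεm
  refine ⟨S, hS, fun t h1 h2 h3 => ?_⟩
  obtain ⟨j, hj⟩ := hS' t h1 h2 h3
  refine ⟨j, ?_⟩
  rw [Complex.div_ofReal_re, div_le_iff₀ (by linarith [hs1 j])] at hj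
  exact hj

end Pool.Agent.MP_ca0a54_nt.H97
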