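import Pool.Agent.MP_ca0a54_nt.H29.Spec
import Pool.Agent.MP_ca0a54_nt.H40.MVT
import Pool.Agent.MP_ca0a54_nt.H88.AR1
import Pool.Agent.MP_ca0a54_nt.H3.AR2a

/-!
Even moments of a Dirichlet polynomial whose coefficients are bounded by the von Mangoldt function.
-/

open Complex MeasureTheory Filter Topology Finset ArithmeticFunction

namespace Pool.Agent.MP_ca0a54_nt.H97

open Pool.Agent.MP_ca0a54_nt.L0 Pool.Agent.MP_ca0a54_nt.H24 Pool.Agent.MP_ca0a54_nt.H29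

/-- The coefficients of the powers of a Dirichlet polynomial. -/
noncomputable def cc (a : ℕ → ℂ) (M : ℕ) : ℕ → ℕ → ℂ
  | 0 => fun n => if n = 1 then 1 else 0
  | j + 1 => fun n => ∑ p ∈ n.divisorsAntidiagonal, cut a M p.1 * cc a M j p.2

lemma cc_supp (a : ℕ → ℂ) (M : ℕ) (j n : ℕ) (h : M ^ j < n) : cc a M j n = 0 := by
  induction j generalizing n with
  | zero =>
    simp only [cc]
    rw [if_neg (by simp at h; omega)]
  | succ j ih =>
    simp only [cc]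
    refine Finset.sum_eq_zero fun p hp => ?_
    have h1 := (Nat.mem_divisorsAntidiagonal.1 hp).1
    by_cases h2 : p.1 ≤ M
    · rw [ih p.2, mul_zero]
      by_contra h3
      have := Nat.mul_le_mul h2 (not_lt.1 h3)
      rw [pow_succ'] at h
      omega
    · simp [cut, h2]

lemma pairsC (F : ℕ × ℕ → ℂ) (M : ℕ) :
    ∑ n ∈ Icc 1 M, ∑ p ∈ n.divisorsAntidiagonal, F p =
      ∑ p ∈ (Icc 1 M ×ˢ Icc 1 M).filter (fun p => p.1 * p.2 ∈ Icc 1 M), F p := by
  apply Complex.ext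
  · simp only [re_sum]
    exact H3.pairs (fun p => (F p).re) _ M (Finset.Subset.refl _)
  · simp only [im_sum]
    exact H3.pairs (fun p => (F p).im) _ M (Finset.Subset.refl _)

lemma dp_mul (a c : ℕ → ℂ) (M N : ℕ) (hM : 1 ≤ M) (hN : 1 ≤ N) (hc : ∀ n, N < n → c n = 0)
    (w : ℂ) : dp a M w * dp c N w =
      dp (fun n => ∑ p ∈ n.divisorsAntidiagonal, cut a M p.1 * c p.2) (M * N) w := by
  unfold dp ds
  have e1 : ∑ n ∈ Icc 1 (M * N), (∑ p ∈ n.divisorsAntidiagonal, cut a M p.1 * c p.2) *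
      np (1 / 2 + I * w) n = ∑ n ∈ Icc 1 (M * N), ∑ p ∈ n.divisorsAntidiagonal,
        (cut a M p.1 * np (1 / 2 + I * w) p.1) * (c p.2 * np (1 / 2 + I * w) p.2) := by
    refine Finset.sum_congr rfl fun n _ => ?_
    rw [Finset.sum_mul]
    refine Finset.sum_congr rfl fun p hp => ?_
    obtain ⟨h1, h2⟩ := Nat.mem_divisorsAntidiagonal.1 hp
    have a1 : p.1 ≠ 0 := by rintro h; rw [h] at h1; omega
    have a2 : p.2 ≠ 0 := by rintro h; rw [h] at h1; omega
    rw [← h1, H88.np_mul _ a1 a2]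
    ring
  rw [e1, pairsC, Finset.sum_mul_sum, ← Finset.sum_product']
  have a1 : M ≤ M * N := Nat.le_mul_of_pos_right _ hN
  have a2 : N ≤ M * N := Nat.le_mul_of_pos_left _ hM
  refine Finset.sum_subset_zero_on_sdiff ?_ ?_ ?_
  · rintro ⟨i, j⟩ h
    simp only [mem_filter, mem_product, mem_Icc] at h ⊢
    obtain ⟨⟨h1, h2⟩, h3, h4⟩ := h
    exact ⟨⟨⟨h1, by omega⟩, h3, by omega⟩, Nat.mul_pos h1 h3, Nat.mul_le_mul h2 h4⟩
  · rintro ⟨i, j⟩ h
    simp only [Finset.mem_sdiff, mem_filter, mem_product, mem_Icc] at h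
    obtain ⟨⟨⟨⟨h1, _⟩, h3, _⟩, _⟩, h5⟩ := h
    by_cases hi : i ≤ M
    · have hj : N < j := by
        by_contra hj
        exact h5 ⟨⟨h1, hi⟩, h3, not_lt.1 hj⟩
      simp [hc j hj]
    · simp [cut, hi]
  · rintro ⟨i, j⟩ h
    simp only [mem_product, mem_Icc] at h
    simp [cut, h.1.2]

lemma dp_pow (a : ℕ → ℂ) (M : ℕ) (hM : 1 ≤ M) (w : ℂ) (j : ℕ) :
    dp a M w ^ j = dp (cc a M j) (M ^ j) w := by
  induction j with
  | zero => simp [dp, ds, cc, np]
  | succ j ih =>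
    rw [pow_succ', ih, dp_mul a _ M _ hM (Nat.one_le_pow _ _ hM) (cc_supp a M j), pow_succ']
    rfl

/-- The von Mangoldt function cut at `M`. -/
noncomputable def lc (M d : ℕ) : ℝ := if d ≤ M then vonMangoldt d else 0

lemma lc_nonneg (M d : ℕ) : 0 ≤ lc M d := by
  unfold lc; split_ifs
  · exact vonMangoldt_nonneg
  · exact le_rfl

lemma lc_sum (M n : ℕ) : ∑ p ∈ n.divisorsAntidiagonal, lc M p.1 ≤ Real.log n := by
  rw [← vonMangoldt_sum, ← Nat.sum_divisorsAntidiagonal (fun a _ => vonMangoldt a)]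
  refine Finset.sum_le_sum fun p _ => ?_
  unfold lc; split_ifs
  · exact le_rfl
  · exact vonMangoldt_nonneg

lemma cc_step (a : ℕ → ℂ) (M : ℕ) (B : ℝ) (ha : ∀ n, ‖a n‖ ≤ B * vonMangoldt n) (j n : ℕ) :
    ‖cc a M (j + 1) n‖ ≤ B * ∑ p ∈ n.divisorsAntidiagonal, lc M p.1 * ‖cc a M j p.2‖ := by
  simp only [cc]
  rw [Finset.mul_sum]
  refine (norm_sum_le _ _).trans (Finset.sum_le_sum fun p _ => ?_)
  rw [norm_mul, ← mul_assoc]
  refine mul_le_mul_of_nonneg_right ?_ (norm_nonneg _)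
  unfold cut lc
  split_ifs
  · exact ha _
  · simp

lemma cc_sup (a : ℕ → ℂ) (M : ℕ) (B G : ℝ) (hB : 0 ≤ B) (hG : 0 ≤ G)
    (ha : ∀ n, ‖a n‖ ≤ B * vonMangoldt n) (j n : ℕ) (hn : Real.log n ≤ G) :
    ‖cc a M j n‖ ≤ (B * G) ^ j := by
  induction j generalizing n with
  | zero =>
    simp only [cc]
    split_ifs <;> simp
  | succ j ih =>
    refine (cc_step a M B ha j n).trans ?_
    have h1 : ∑ p ∈ n.divisorsAntidiagonal, lc M p.1 * ‖cc a M j p.2‖ ≤
        ∑ p ∈ n.divisorsAntidiagonal, lc M p.1 * (B * G) ^ j := by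
      refine Finset.sum_le_sum fun p hp => mul_le_mul_of_nonneg_left (ih _ ?_) (lc_nonneg _ _)
      obtain ⟨h1, h2⟩ := Nat.mem_divisorsAntidiagonal.1 hp
      have a1 : p.1 ≠ 0 := by rintro h; rw [h] at h1; omega
      have a2 : p.2 ≠ 0 := by rintro h; rw [h] at h1; omega
      have a3 : p.2 ≤ n := h1 ▸ Nat.le_mul_of_pos_left _ (Nat.pos_of_ne_zero a1)
      refine le_trans (Real.log_le_log ?_ ?_) hn
      · exact_mod_cast Nat.pos_of_ne_zero a2
      · exact_mod_cast a3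
    rw [← Finset.sum_mul] at h1
    have h2 := mul_le_mul_of_nonneg_right ((lc_sum M n).trans hn) (pow_nonneg (mul_nonneg hB hG) j)
    calc _ ≤ B * (G * (B * G) ^ j) := mul_le_mul_of_nonneg_left (h1.trans h2) hB
      _ = _ := by ring

lemma cc_sq_step (a : ℕ → ℂ) (M : ℕ) (B : ℝ) (hB : 0 ≤ B)
    (ha : ∀ n, ‖a n‖ ≤ B * vonMangoldt n) (j n : ℕ) :
    ‖cc a M (j + 1) n‖ ^ 2 ≤
      B ^ 2 * Real.log n * ∑ p ∈ n.divisorsAntidiagonal, lc M p.1 * ‖cc a M j p.2‖ ^ 2 := by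
  have h1 := cc_step a M B ha j n
  have h2 : (∑ p ∈ n.divisorsAntidiagonal, lc M p.1 * ‖cc a M j p.2‖) ^ 2 ≤
      (∑ p ∈ n.divisorsAntidiagonal, lc M p.1) *
        ∑ p ∈ n.divisorsAntidiagonal, lc M p.1 * ‖cc a M j p.2‖ ^ 2 := by
    refine Finset.sum_sq_le_sum_mul_sum_of_sq_eq_mul _ (fun p _ => lc_nonneg _ _)
      (fun p _ => mul_nonneg (lc_nonneg _ _) (sq_nonneg _)) fun p _ => by ring
  have h3 : 0 ≤ ∑ p ∈ n.divisorsAntidiagonal, lc M p.1 * ‖cc a M j p.2‖ ^ 2 :=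
    Finset.sum_nonneg fun p _ => mul_nonneg (lc_nonneg _ _) (sq_nonneg _)
  have h4 := mul_le_mul_of_nonneg_right (lc_sum M n) h3
  calc _ ≤ (B * ∑ p ∈ n.divisorsAntidiagonal, lc M p.1 * ‖cc a M j p.2‖) ^ 2 :=
        pow_le_pow_left₀ (norm_nonneg _) h1 2
    _ = B ^ 2 * (∑ p ∈ n.divisorsAntidiagonal, lc M p.1 * ‖cc a M j p.2‖) ^ 2 := by ring
    _ ≤ B ^ 2 * (Real.log n * ∑ p ∈ n.divisorsAntidiagonal, lc M p.1 * ‖cc a M j p.2‖ ^ 2) :=
        mul_le_mul_of_nonneg_left (h2.trans h4) (sq_nonneg _)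
    _ = _ := by ring

lemma lam_div (M : ℕ) (hM : 3 ≤ M) :
    ∑ d ∈ Icc 1 M, vonMangoldt d / (d : ℝ) ≤ 40 * Real.log M := by
  have hM' : (3 : ℝ) ≤ M := by exact_mod_cast hM
  have hl : 1 ≤ Real.log M := by
    rw [Real.le_log_iff_exp_le (by linarith)]
    linarith [Real.exp_one_lt_d9]
  have h := H88.part8 (1 / Real.log M) M (by positivity) (by rw [div_le_one (by linarith)]; exact hl)
  have h2 : ∑ d ∈ Icc 1 M, vonMangoldt d / (d : ℝ) ≤ ∑ d ∈ Icc 1 M,
      3 * (vonMangoldt d * Real.exp (-(1 + 1 / Real.log M) * Real.log d)) := by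
    refine Finset.sum_le_sum fun d hd => ?_
    obtain ⟨h1, h2⟩ := mem_Icc.1 hd
    have d0 : (0 : ℝ) < d := by exact_mod_cast h1
    have d1 : Real.log d ≤ Real.log M := Real.log_le_log d0 (by exact_mod_cast h2)
    have d2 : Real.log d / Real.log M ≤ 1 := by rw [div_le_one (by linarith)]; exact d1
    have d3 : 1 / (d : ℝ) ≤ 3 * Real.exp (-(1 + 1 / Real.log M) * Real.log d) := by
      have e : 1 / (d : ℝ) = Real.exp (Real.log d / Real.log M) *
          Real.exp (-(1 + 1 / Real.log M) * Real.log d) := by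
        rw [← Real.exp_add, one_div (d : ℝ)]
        nth_rewrite 1 [← Real.exp_log d0]
        rw [← Real.exp_neg]
        congr 1
        ring
      rw [e]
      refine mul_le_mul_of_nonneg_right ?_ (Real.exp_pos _).le
      linarith [Real.exp_le_exp.2 d2, Real.exp_one_lt_d9]
    have := mul_le_mul_of_nonneg_left d3 (vonMangoldt_nonneg (n := d))
    calc _ = vonMangoldt d * (1 / (d : ℝ)) := by ring
      _ ≤ _ := this
      _ = _ := by ring
  rw [← Finset.mul_sum] at h2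
  have e : 12 / (1 / Real.log M) = 12 * Real.log M := by field_simp
  linarith

lemma lc_div (M N : ℕ) (hM : 3 ≤ M) : ∑ d ∈ Icc 1 N, lc M d / (d : ℝ) ≤ 40 * Real.log M := by
  refine le_trans ?_ (lam_div M hM)
  have e : ∑ d ∈ Icc 1 N, lc M d / (d : ℝ) =
      ∑ d ∈ (Icc 1 N).filter (· ≤ M), vonMangoldt d / (d : ℝ) := by
    rw [Finset.sum_filter]
    refine Finset.sum_congr rfl fun d _ => ?_
    unfold lc
    split_ifs <;> simp
  rw [e]
  refine Finset.sum_le_sum_of_subset_of_nonneg ?_ fun d _ _ =>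
    div_nonneg vonMangoldt_nonneg (Nat.cast_nonneg _)
  intro d hd
  simp only [mem_filter, mem_Icc] at hd ⊢
  exact ⟨hd.1.1, hd.2⟩

lemma cc_ms (a : ℕ → ℂ) (M N : ℕ) (B G : ℝ) (hM : 3 ≤ M) (hB : 0 ≤ B) (hG : 0 ≤ G)
    (hN : Real.log N ≤ G) (ha : ∀ n, ‖a n‖ ≤ B * vonMangoldt n) (j : ℕ) :
    ∑ n ∈ Icc 1 N, ‖cc a M j n‖ ^ 2 / (n : ℝ) ≤ (40 * B ^ 2 * G * Real.log M) ^ j := by
  induction j with
  | zero =>
    have e : ∀ n ∈ Icc 1 N, ‖cc a M 0 n‖ ^ 2 / (n : ℝ) = if n = 1 then 1 else 0 := by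
      intro n _
      simp only [cc]
      split_ifs with h <;> simp [h]
    rw [Finset.sum_congr rfl e, Finset.sum_ite_eq']
    split_ifs <;> simp
  | succ j ih =>
    have h0 : 0 ≤ Real.log M := Real.log_natCast_nonneg M
    have h1 : ∑ n ∈ Icc 1 N, ‖cc a M (j + 1) n‖ ^ 2 / (n : ℝ) ≤ ∑ n ∈ Icc 1 N, B ^ 2 * G *
        ∑ p ∈ n.divisorsAntidiagonal, lc M p.1 / p.1 * (‖cc a M j p.2‖ ^ 2 / p.2) := by
      refine Finset.sum_le_sum fun n hn => ?_
      obtain ⟨n1, n2⟩ := mem_Icc.1 hn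
      have n0 : (0 : ℝ) < n := by exact_mod_cast n1
      have n3 : Real.log n ≤ G := (Real.log_le_log n0 (by exact_mod_cast n2)).trans hN
      have e : ∑ p ∈ n.divisorsAntidiagonal, lc M p.1 / p.1 * (‖cc a M j p.2‖ ^ 2 / p.2) =
          (∑ p ∈ n.divisorsAntidiagonal, lc M p.1 * ‖cc a M j p.2‖ ^ 2) / n := by
        rw [Finset.sum_div]
        refine Finset.sum_congr rfl fun p hp => ?_
        rw [← (Nat.mem_divisorsAntidiagonal.1 hp).1, div_mul_div_comm]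
        push_cast
        rfl
      rw [e, ← mul_div_assoc]
      refine div_le_div_of_nonneg_right ((cc_sq_step a M B hB ha j n).trans ?_) n0.le
      exact mul_le_mul_of_nonneg_right (mul_le_mul_of_nonneg_left n3 (sq_nonneg _))
        (Finset.sum_nonneg fun p _ => mul_nonneg (lc_nonneg _ _) (sq_nonneg _))
    have h2 := H3.conv_le (fun d => lc M d / d) (fun m => ‖cc a M j m‖ ^ 2 / m) (Icc 1 N) N
      (Finset.Subset.refl _) ((40 * B ^ 2 * G * Real.log M) ^ j)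
      (fun d => div_nonneg (lc_nonneg _ _) (Nat.cast_nonneg _))
      (fun k _ => le_trans (Finset.sum_le_sum_of_subset_of_nonneg (Finset.filter_subset _ _)
        fun _ _ _ => by positivity) ih)
    have h3 := mul_le_mul_of_nonneg_right (lc_div M N hM)
      (show 0 ≤ (40 * B ^ 2 * G * Real.log M) ^ j by positivity)
    rw [← Finset.mul_sum] at h1
    calc _ ≤ _ := h1
      _ ≤ B ^ 2 * G * (40 * Real.log M * (40 * B ^ 2 * G * Real.log M) ^ j) :=
          mul_le_mul_of_nonneg_left (h2.trans h3) (by positivity)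
      _ = _ := by ring

theorem mom : MomStmt := by
  obtain ⟨K, hK, h⟩ := H40.mean_sq
  refine ⟨K, hK, fun k M a B y t₁ t₂ hk hM hB hy ht ha => ?_⟩
  have h0 : 0 ≤ Real.log M := Real.log_natCast_nonneg M
  have hG : 0 ≤ k * Real.log M := by positivity
  have hN : Real.log ((M ^ k : ℕ) : ℝ) = k * Real.log M := by push_cast; rw [Real.log_pow]
  have hz : (-(y * I) : ℂ).im = -y := by simp
  have key := h (M ^ k) (cc a M k) (Icc 1 (M ^ k)) (-(y * I)) ((B * (k * Real.log M)) ^ k) t₁ t₂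
    (Finset.Subset.refl _) (by positivity) (by
      intro n hn
      obtain ⟨n1, n2⟩ := mem_Icc.1 hn
      have n0 : (0 : ℝ) < n := by exact_mod_cast n1
      have n3 : Real.log n ≤ k * Real.log M :=
        (Real.log_le_log n0 (by exact_mod_cast n2)).trans hN.le
      have n4 : Real.exp ((-(y * I) : ℂ).im * Real.log n) ≤ 1 := by
        rw [hz, Real.exp_le_one_iff]
        nlinarith [Real.log_natCast_nonneg n]
      calc _ ≤ ‖cc a M k n‖ * 1 := mul_le_mul_of_nonneg_left n4 (norm_nonneg _)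
        _ ≤ _ := by rw [mul_one]; exact cc_sup a M B _ hB hG ha k n n3)
  have e1 : ∫ t in t₁..t₂, ‖dp a M (t - y * I)‖ ^ (2 * k) =
      ∫ t in t₁..t₂, ‖ds (cc a M k) (Icc 1 (M ^ k)) (t + -(y * I))‖ ^ 2 := by
    refine intervalIntegral.integral_congr fun t _ => ?_
    rw [mul_comm 2 k, pow_mul, ← norm_pow, dp_pow a M (by omega), sub_eq_add_neg]
    rfl
  have e2 : ms (cc a M k) (Icc 1 (M ^ k)) (-(y * I) : ℂ).im ≤
      (40 * k * B ^ 2 * Real.log M ^ 2) ^ k := by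
    have := cc_ms a M (M ^ k) B _ hM hB hG hN.le ha k
    rw [show 40 * B ^ 2 * (k * Real.log M) * Real.log M = 40 * k * B ^ 2 * Real.log M ^ 2 by ring]
      at this
    refine le_trans (Finset.sum_le_sum fun n hn => ?_) this
    have n0 : (0 : ℝ) < n := by exact_mod_cast (mem_Icc.1 hn).1
    rw [div_eq_mul_inv, hz]
    refine mul_le_mul_of_nonneg_left ?_ (sq_nonneg _)
    nth_rewrite 2 [← Real.exp_log n0]
    rw [← Real.exp_neg, Real.exp_le_exp]
    nlinarith [Real.log_natCast_nonneg n]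
  rw [e1]
  refine key.trans (add_le_add (mul_le_mul_of_nonneg_left e2 (by linarith)) (le_of_eq ?_))
  rw [hN]
  push_cast
  ring

end Pool.Agent.MP_ca0a54_nt.H97
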